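import Pool.Agent.N897.FO.Main
import Pool.Agent.N897.FO.Classes

/-!
# Many conjugacy classes: few exceptional orders

For every `ε > 0` and all `n ≤ x` but at most `K x exp (- c √(log x))` every group of order `n` has at least `n ^ (1 - ε)`
conjugacy classes; in particular more than `log n / log 3`. The same holds for the orders `F (m)` where `F` is a composition
of additive functions (or of similar functions), for all `m ≤ x` but `K x exp (- c (log x) ^ (1 / (j + 2)))`, `j` the number of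
the functions.

Proof. It is sufficient to count the `n ≤ x` which are divisible by the square of a prime `p > y`, or by `p d` with `d > 1`,
`d ≡ 1` modulo `p` (up to small factors), or with a `y`-smooth part larger than `n ^ (ε / 2)`, with `y = exp √(log x)` and
Rankin's method for the smooth part. All other groups have a cyclic subgroup `C` of index at most `n ^ (ε / 2)`, and an
abelian subgroup `C` meets at least `|C| ^ 2 / |G|` classes. The preimages under functions dominated by the largest prime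
factor of thin sets are thin (`Pool/Agent/N375/AV`, helper375).
-/

set_option autoImplicit false

namespace Pool.Agent.Results.MP_0f21ab_al.FewExceptionalOrders

open Pool.Agent.N897.FO (S orders values large_pow classes_of_good)
open Pool.Agent.N375.AV (PD comp pd_additive pd_largest pd_kempner)
open Pool.Agent.TH669.AD (GoodDeg)

/-- every group of order `n` has at least `n ^ (1 - ε)` conjugacy classes -/
def ManyClasses (ε : ℝ) (n : ℕ) : Prop :=
  ∀ (G : Type) [Group G] [Finite G], Nat.card G = n → (n : ℝ) ^ (1 - ε) ≤ (Nat.card (ConjClasses G) : ℝ)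

/-- every group of order `n` has more than `log n / log 3` conjugacy classes -/
def Bertram (n : ℕ) : Prop :=
  ∀ (G : Type) [Group G] [Finite G], Nat.card G = n → Real.log n / Real.log 3 < (Nat.card (ConjClasses G) : ℝ)

/-- for large `n` the second bound follows from the first -/
lemma bertram_of_many : ∃ M : ℕ, ∀ n : ℕ, M ≤ n → 0 < n → ManyClasses (1 / 2) n → Bertram n := by
  obtain ⟨M, -, hM⟩ := large_pow (show (0 : ℝ) < 1 / 4 by norm_num) 4
  refine ⟨M, fun n hn h0 h G _ _ hG => ?_⟩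
  have hn0 : (0 : ℝ) < n := by exact_mod_cast h0
  have h1 := h G hG
  have h2 := hM n hn
  have h3 : Real.log n ≤ 4 * (n : ℝ) ^ (1 / 4 : ℝ) := by
    have h4 : Real.log ((n : ℝ) ^ (1 / 4 : ℝ)) ≤ (n : ℝ) ^ (1 / 4 : ℝ) - 1 := Real.log_le_sub_one_of_pos (by positivity)
    rw [Real.log_rpow hn0] at h4
    linarith
  have h5 : (n : ℝ) ^ (1 - 1 / 2 : ℝ) = (n : ℝ) ^ (1 / 4 : ℝ) * (n : ℝ) ^ (1 / 4 : ℝ) := by
    rw [← Real.rpow_add hn0]
    norm_num
  have h6 : (1 : ℝ) ≤ Real.log 3 := by
    rw [Real.le_log_iff_exp_le (by norm_num)]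
    have := Real.exp_one_lt_d9
    linarith
  refine lt_of_le_of_lt ?_ (lt_of_lt_of_le (show 4 * (n : ℝ) ^ (1 / 4 : ℝ) < (n : ℝ) ^ (1 - 1 / 2 : ℝ) by
    rw [h5]; nlinarith) h1)
  rw [div_le_iff₀ (by linarith)]
  have h7 : 0 < (n : ℝ) ^ (1 / 4 : ℝ) := by positivity
  nlinarith

/-- **Few exceptional orders.** (1) For `ε > 0` all but `K x exp (- c √(log x))` of the `n ≤ x` satisfy `ManyClasses ε n` and
`Bertram n`: every group of order `n` has at least `n ^ (1 - ε)` conjugacy classes, and more than `log n / log 3`. (2) The same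
for the numbers `F (m)`, `F` a composition of functions dominated by the largest prime factor. (3) Examples of such functions. -/
theorem result :
    (∀ ε : ℝ, 0 < ε →
      (∃ c K : ℝ, 0 < c ∧ ∀ x : ℕ, 1 ≤ x →
        ({n : ℕ | 1 ≤ n ∧ n ≤ x ∧ ¬ (ManyClasses ε n ∧ Bertram n)}.ncard : ℝ) ≤
          K * x * Real.exp (-(c * √(Real.log x)))) ∧
      ∀ fs : List (ℕ → ℕ), (∀ f ∈ fs, PD f) → ∃ c K : ℝ, 0 < c ∧ ∀ x : ℕ, 1 ≤ x →
        ({m : ℕ | 1 ≤ m ∧ m ≤ x ∧ ¬ (ManyClasses ε (comp fs m) ∧ Bertram (comp fs m))}.ncard : ℝ) ≤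
          K * x * Real.exp (-(c * Real.log x ^ (1 / ((fs.length : ℝ) + 2))))) ∧
    (∀ f : ℕ → ℕ, (∀ a b : ℕ, Nat.Coprime a b → f (a * b) = f a + f b) →
      (∃ C : ℕ, ∀ q j : ℕ, q.Prime → 1 ≤ j → f (q ^ j) ≤ C * q ^ j) →
      (∃ P : ℕ, ∀ p q : ℕ, p.Prime → q.Prime → P ≤ p → P ≤ q → f p = f q → p = q) → PD f) ∧
    (PD (fun n => n.primeFactors.sup id) ∧ PD (fun n => sInf {k : ℕ | n ∣ k.factorial})) := by
  refine ⟨fun ε hε => ?_, fun f a1 a2 a3 => pd_additive a1 a2 a3, ⟨pd_largest, pd_kempner⟩⟩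
  have hε' : 0 < min (ε / 2) (1 / 4) := lt_min (by linarith) (by norm_num)
  obtain ⟨M, hM⟩ := bertram_of_many
  have hM' : ∀ n y : ℕ, M ≤ n → 0 < n → S n ≤ y → (2 : ℝ) ≤ (n : ℝ) ^ (min (ε / 2) (1 / 4)) →
      GoodDeg y (S n) ((n : ℝ) ^ (min (ε / 2) (1 / 4))) n → ManyClasses ε n ∧ Bertram n := by
    intro n y h1 h2 h3 _ h5
    have hn1 : (1 : ℝ) ≤ n := by exact_mod_cast h2
    have hmany : ∀ δ : ℝ, 2 * min (ε / 2) (1 / 4) ≤ δ → ManyClasses δ n := by
      intro δ hδ G _ _ hG
      refine le_trans ?_ (classes_of_good h2 h3 h5 G hG)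
      apply Real.rpow_le_rpow_of_exponent_le hn1
      linarith
    refine ⟨hmany ε (by have := min_le_left (ε / 2) (1 / 4); linarith), hM n h1 h2 (hmany (1 / 2) ?_)⟩
    have := min_le_right (ε / 2) (1 / 4)
    linarith
  exact ⟨orders hε' M hM', fun fs hfs => values hε' M hM' fs hfs⟩

end Pool.Agent.Results.MP_0f21ab_al.FewExceptionalOrders
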